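import Mathlib
import Pool.Agent.H383.ShortMS
import Pool.Agent.H383.CircD

open MeasureTheory Set Filter Topology
open Pool.Agent.H383.Gauss Pool.Agent.H383.Circ

namespace Pool.Agent.H452R2.Circ

/-- mean square over short progressions of radii -/
theorem ms_short {α : ℝ} (hα : 0 < α) {ε : ℝ} (hε : 0 < ε) : ∃ C : ℝ, 0 < C ∧ ∀ X : ℝ, 1 ≤ X →
    ∀ L : ℕ, ∑ j ∈ Finset.range L, (F (X + j * α) - Real.pi * (X + j * α)^2)^2 ≤
      C * (X + L) ^ (1 + ε) * (L + (L * X) ^ (1/3:ℝ)) := by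
  obtain ⟨C2, hC2, hV⟩ := V_ms hα hε
  obtain ⟨C0, hC0, hW⟩ := W_sub_V
  set a : ℝ := 1 + α with ha
  have ha1 : 1 ≤ a := by linarith
  have hpi := Real.pi_pos
  set K1 : ℝ := 2 * Real.pi * a with hK1
  set K2 : ℝ := Real.pi + 14 * C0 * √(a+1) with hK2
  refine ⟨(4 * K1^2 + 4 * K2^2 + 4 * (a+1) * (2 * (2 * (C2 * 2^ε)))) * 2, by positivity, ?_⟩
  intro X hX L
  have hX0 : 0 < X := by linarith
  rcases Nat.eq_zero_or_pos L with rfl | hL
  · simp only [Finset.range_zero, Finset.sum_empty]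
    positivity
  have hL' : (1:ℝ) ≤ L := by exact_mod_cast hL
  have hL0 : (0:ℝ) < L := by linarith
  set Z : ℝ := X + L with hZ
  have hZ2 : 2 ≤ Z := by rw [hZ]; linarith
  have hZ0 : 0 < Z := by linarith
  have hZ1 : 1 ≤ Z := by linarith
  have hLZ : 1 ≤ L * Z := by nlinarith
  have hsZ : 0 < √Z := Real.sqrt_pos.mpr hZ0
  have hsZ2 : √Z * √Z = Z := Real.mul_self_sqrt hZ0.le
  set T : ℝ := (L * Z) ^ (1/3:ℝ) with hT
  have hT0 : 0 < T := by positivity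
  have hT3 : T^3 = L * Z := by
    rw [hT, ← Real.rpow_natCast, ← Real.rpow_mul (by positivity)]; norm_num
  have hT1 : 1 ≤ T := Real.one_le_rpow hLZ (by norm_num)
  set δ : ℝ := (1/2) * max (1/√Z) (1/T) with hδ
  have hsZ1 : 1 ≤ √Z := Real.one_le_sqrt.mpr hZ1
  have hδ0 : 0 < δ := by positivity
  have hδ1 : δ ≤ 1/2 := by
    have : max (1/√Z) (1/T) ≤ 1 := by
      apply max_le
      · rw [div_le_one hsZ]; exact hsZ1
      · rw [div_le_one hT0]; exact hT1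
    rw [hδ]; linarith
  have hδZ : 1 / (2 * √Z) ≤ δ := by
    have h1 := le_max_left (1/√Z) (1/T)
    have : 1 / (2 * √Z) = (1/2) * (1/√Z) := by field_simp
    rw [this, hδ]; linarith
  have hδT : 1 / δ ≤ 2 * T := by
    have h1 := le_max_right (1/√Z) (1/T)
    rw [div_le_iff₀ (by positivity), hδ]
    have h2 : T * (1/T) = 1 := by field_simp
    have h3 : T * (1/T) ≤ T * max (1/√Z) (1/T) := mul_le_mul_of_nonneg_left h1 hT0.le
    calc 1 = T * (1/T) := h2.symm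
      _ ≤ T * max (1/√Z) (1/T) := h3
      _ = _ := by ring
  have hδ2 : δ^2 * (L * Z) ≤ L + T := by
    have h1 : (max (1/√Z) (1/T))^2 ≤ 1/Z + 1/T^2 := by
      rcases le_total (1/√Z) (1/T) with h | h
      · rw [max_eq_right h, div_pow, one_pow]
        have : 0 < 1/Z := by positivity
        linarith
      · rw [max_eq_left h, div_pow, one_pow, Real.sq_sqrt hZ0.le]
        have : 0 < 1/T^2 := by positivity
        linarith
    have h2 : (1/Z + 1/T^2) * (L * Z) = L + T := by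
      have : (1/T^2) * (L * Z) = T := by
        rw [← hT3]; field_simp
      rw [add_mul, this]
      field_simp
    have h3 : (max (1/√Z) (1/T))^2 * (L * Z) ≤ L + T := by
      rw [← h2]; exact mul_le_mul_of_nonneg_right h1 (by positivity)
    have h4 : 0 ≤ (max (1/√Z) (1/T))^2 * (L * Z) := by positivity
    calc δ^2 * (L * Z) = (1/4) * ((max (1/√Z) (1/T))^2 * (L * Z)) := by rw [hδ]; ring
      _ ≤ _ := by linarith
  set Y : ℕ := ⌈Z⌉₊ with hY
  have hYZ : Z ≤ Y := Nat.le_ceil Z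
  have hY1 : 1 ≤ Y := by
    have : (1:ℝ) ≤ Y := by linarith
    exact_mod_cast this
  have hY2 : (Y:ℝ) ≤ 2 * Z := by
    have := Nat.ceil_lt_add_one hZ0.le
    linarith
  have hZε : 1 ≤ Z^ε := Real.one_le_rpow hZ1 hε.le
  have hsmall : δ ^ (-(3/2):ℝ) * (Y:ℝ) ^ (-(9/10):ℝ) ≤ 3 := by
    have e1 : δ ^ (-(3/2):ℝ) ≤ 3 * Z ^ (3/4:ℝ) := by
      calc δ ^ (-(3/2):ℝ) ≤ (1 / (2 * √Z)) ^ (-(3/2):ℝ) :=
            Real.rpow_le_rpow_of_nonpos (by positivity) hδZ (by norm_num)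
        _ = (2:ℝ) ^ (3/2:ℝ) * Z ^ (3/4:ℝ) := by
            rw [one_div, Real.inv_rpow (by positivity), ← Real.rpow_neg (by positivity), Real.mul_rpow (by norm_num) hsZ.le,
              Real.sqrt_eq_rpow, ← Real.rpow_mul hZ0.le]
            norm_num
        _ ≤ 3 * Z ^ (3/4:ℝ) := by
            apply mul_le_mul_of_nonneg_right _ (by positivity)
            have h8 : ((2:ℝ) ^ (3/2:ℝ))^2 = 8 := by
              rw [← Real.rpow_natCast, ← Real.rpow_mul (by norm_num)]; norm_num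
            nlinarith [Real.rpow_pos_of_pos (by norm_num : (0:ℝ) < 2) (3/2)]
    have e2 : (Y:ℝ) ^ (-(9/10):ℝ) ≤ Z ^ (-(9/10):ℝ) :=
      Real.rpow_le_rpow_of_nonpos hZ0 hYZ (by norm_num)
    calc δ ^ (-(3/2):ℝ) * (Y:ℝ) ^ (-(9/10):ℝ) ≤ (3 * Z ^ (3/4:ℝ)) * Z ^ (-(9/10):ℝ) := by gcongr
      _ = 3 * Z ^ (-(3/20):ℝ) := by rw [mul_assoc, ← Real.rpow_add hZ0]; norm_num
      _ ≤ 3 * 1 := by
          apply mul_le_mul_of_nonneg_left _ (by norm_num)
          exact Real.rpow_le_one_of_one_le_of_nonpos (by linarith) (by norm_num)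
      _ = 3 := by norm_num
  -- the two sums
  have hsum : ∀ β : ℝ, ∑ j ∈ Finset.range L, (V (β + j * α) δ Y)^2 ≤ (2 * (C2 * 2^ε)) * Z^ε * (L + T) := by
    intro β
    refine (hV β δ Y L hδ0 hY1 hL).trans ?_
    have h1 : (Y:ℝ)^ε ≤ 2^ε * Z^ε := by
      rw [← Real.mul_rpow (by norm_num) hZ0.le]
      exact Real.rpow_le_rpow (by positivity) hY2 hε.le
    have h2 : (L:ℝ) * (1 + 1/(L * δ)) = L + 1/δ := by
      field_simp
    calc C2 * L * (1 + 1/(L*δ)) * (Y:ℝ)^ε = C2 * (L * (1 + 1/(L*δ))) * (Y:ℝ)^ε := by ring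
      _ = C2 * (L + 1/δ) * (Y:ℝ)^ε := by rw [h2]
      _ ≤ C2 * (2 * (L + T)) * (2^ε * Z^ε) := by
          gcongr
          linarith
      _ = _ := by ring
  -- pointwise
  have hpt : ∀ j ∈ Finset.range L, (F (X + j * α) - Real.pi * (X + j * α)^2)^2 ≤
      Z * (4 * K1^2 * (δ^2 * Z) + 4 * K2^2 + 4 * (a+1) * ((V ((X + δ) + j * α) δ Y)^2 + (V ((X - δ) + j * α) δ Y)^2)) := by
    intro j hj
    rw [Finset.mem_range] at hj
    set R : ℝ := X + j * α with hR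
    have hjL : (j:ℝ) ≤ L := by exact_mod_cast hj.le
    have hR1 : 1 ≤ R := by rw [hR]; nlinarith [Nat.cast_nonneg (α := ℝ) j]
    have hRZ : R ≤ a * Z := by
      rw [hR, ha, hZ]
      have : (j:ℝ) * α ≤ L * α := mul_le_mul_of_nonneg_right hjL hα.le
      nlinarith
    have hP := P_abs_le hδ0 (h := (by linarith : δ < R))
    have hRδ : 2 * Real.pi * R * δ ≤ √Z * (K1 * (δ * √Z)) := by
      calc 2 * Real.pi * R * δ ≤ 2 * Real.pi * (a * Z) * δ := by gcongr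
        _ = √Z * (K1 * (δ * √Z)) := by
          rw [hK1]
          calc 2 * Real.pi * (a * Z) * δ = 2 * Real.pi * a * δ * Z := by ring
            _ = 2 * Real.pi * a * δ * (√Z * √Z) := by rw [hsZ2]
            _ = _ := by ring
    have hδ2' : δ^2 ≤ √Z := by nlinarith
    have hRZ' : (a + 1) * Z = a * Z + Z := by ring
    have hs1 : √(R + δ) ≤ √(a+1) * √Z := by
      rw [← Real.sqrt_mul (by positivity)]
      apply Real.sqrt_le_sqrt; rw [hRZ']; linarith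
    have hs2 : √(R - δ) ≤ √(a+1) * √Z := by
      rw [← Real.sqrt_mul (by positivity)]
      apply Real.sqrt_le_sqrt; rw [hRZ']; linarith
    have hW1 : |W (R + δ) δ| ≤ |V (R + δ) δ Y| + 7 * C0 := by
      have h1 := hW (R + δ) δ Y (by linarith) hδ0 hY1
      have h2 : 1/(R+δ) ≤ 4 := by
        rw [div_le_iff₀ (by linarith)]; linarith
      have h3 : |W (R + δ) δ| ≤ |V (R + δ) δ Y| + |W (R + δ) δ - V (R + δ) δ Y| := by
        have := abs_add_le (V (R + δ) δ Y) (W (R + δ) δ - V (R + δ) δ Y)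
        simpa using this
      have h4 : C0 * (1 / (R + δ) + δ ^ (-(3/2):ℝ) * (Y:ℝ) ^ (-(9/10):ℝ)) ≤ C0 * 7 :=
        mul_le_mul_of_nonneg_left (by linarith) hC0.le
      linarith
    have hW2 : |W (R - δ) δ| ≤ |V (R - δ) δ Y| + 7 * C0 := by
      have h1 := hW (R - δ) δ Y (by linarith) hδ0 hY1
      have h2 : 1/(R-δ) ≤ 4 := by
        rw [div_le_iff₀ (by linarith)]; linarith
      have h3 : |W (R - δ) δ| ≤ |V (R - δ) δ Y| + |W (R - δ) δ - V (R - δ) δ Y| := by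
        have := abs_add_le (V (R - δ) δ Y) (W (R - δ) δ - V (R - δ) δ Y)
        simpa using this
      have h4 : C0 * (1 / (R - δ) + δ ^ (-(3/2):ℝ) * (Y:ℝ) ^ (-(9/10):ℝ)) ≤ C0 * 7 :=
        mul_le_mul_of_nonneg_left (by linarith) hC0.le
      linarith
    have e1 : (X + δ) + j * α = R + δ := by rw [hR]; ring
    have e2 : (X - δ) + j * α = R - δ := by rw [hR]; ring
    rw [e1, e2]
    set v1 := |V (R + δ) δ Y| with hv1
    set v2 := |V (R - δ) δ Y| with hv2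
    have hv1n : 0 ≤ v1 := abs_nonneg _
    have hv2n : 0 ≤ v2 := abs_nonneg _
    have hsa : 0 ≤ √(a+1) := Real.sqrt_nonneg _
    have hPle : |F R - Real.pi * R^2| ≤ √Z * (K1 * (δ * √Z) + K2 + √(a+1) * v1 + √(a+1) * v2) := by
      calc |F R - Real.pi * R^2| ≤ 2 * Real.pi * R * δ + Real.pi * δ^2 + √(R + δ) * |W (R + δ) δ| +
            √(R - δ) * |W (R - δ) δ| := hP
        _ ≤ √Z * (K1 * (δ * √Z)) + Real.pi * √Z + (√(a+1) * √Z) * (v1 + 7 * C0) +
            (√(a+1) * √Z) * (v2 + 7 * C0) := by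
            have t2 : Real.pi * δ^2 ≤ Real.pi * √Z := mul_le_mul_of_nonneg_left hδ2' hpi.le
            have t3 : √(R + δ) * |W (R + δ) δ| ≤ (√(a+1) * √Z) * (v1 + 7 * C0) :=
              mul_le_mul hs1 hW1 (abs_nonneg _) (by positivity)
            have t4 : √(R - δ) * |W (R - δ) δ| ≤ (√(a+1) * √Z) * (v2 + 7 * C0) :=
              mul_le_mul hs2 hW2 (abs_nonneg _) (by positivity)
            linarith
        _ = _ := by rw [hK2]; ring
    have hKn : 0 ≤ K2 := by positivity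
    have hKn1 : 0 ≤ K1 := by positivity
    calc (F R - Real.pi * R^2)^2 = |F R - Real.pi * R^2|^2 := (sq_abs _).symm
      _ ≤ (√Z * (K1 * (δ * √Z) + K2 + √(a+1) * v1 + √(a+1) * v2))^2 := pow_le_pow_left₀ (abs_nonneg _) hPle 2
      _ = Z * (K1 * (δ * √Z) + K2 + √(a+1) * v1 + √(a+1) * v2)^2 := by rw [mul_pow, sq (√Z), hsZ2]
      _ ≤ Z * (4 * ((K1 * (δ * √Z))^2 + K2^2 + (√(a+1) * v1)^2 + (√(a+1) * v2)^2)) := by
          apply mul_le_mul_of_nonneg_left _ hZ0.le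
          exact Pool.Agent.H383.GW.lip_sum_four _ _ _ _
      _ = _ := by
          have i1 : (K1 * (δ * √Z))^2 = K1^2 * (δ^2 * Z) := by
            calc (K1 * (δ * √Z))^2 = K1^2 * (δ^2 * (√Z * √Z)) := by ring
              _ = _ := by rw [hsZ2]
          have i2 : (√(a+1) * v1)^2 = (a+1) * (V (R + δ) δ Y)^2 := by
            rw [mul_pow, Real.sq_sqrt (by positivity), hv1, sq_abs]
          have i3 : (√(a+1) * v2)^2 = (a+1) * (V (R - δ) δ Y)^2 := by
            rw [mul_pow, Real.sq_sqrt (by positivity), hv2, sq_abs]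
          rw [i1, i2, i3]
          ring
  have hTX : T ≤ (L * X) ^ (1/3:ℝ) + L := by
    have h1 : (L * Z : ℝ) = L * X + L * L := by rw [hZ]; ring
    rw [hT, h1]
    refine (Real.rpow_add_le_add_rpow (by positivity) (by positivity) (by norm_num) (by norm_num)).trans ?_
    have h2 : (L * L : ℝ) ^ (1/3:ℝ) ≤ L := by
      have h3 : (L * L : ℝ) = (L:ℝ) ^ (2:ℝ) := by rw [Real.rpow_two]; ring
      rw [h3, ← Real.rpow_mul hL0.le]
      calc (L:ℝ) ^ (2 * (1/3:ℝ)) ≤ (L:ℝ) ^ (1:ℝ) := Real.rpow_le_rpow_of_exponent_le hL' (by norm_num)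
        _ = L := Real.rpow_one _
    linarith
  have hW0 : 0 ≤ (L * X : ℝ) ^ (1/3:ℝ) := by positivity
  set W' := (L * X : ℝ) ^ (1/3:ℝ) with hW'
  have hLW : (L:ℝ) + T ≤ 2 * (L + W') := by linarith
  calc ∑ j ∈ Finset.range L, (F (X + j * α) - Real.pi * (X + j * α)^2)^2
      ≤ ∑ j ∈ Finset.range L, Z * (4 * K1^2 * (δ^2 * Z) + 4 * K2^2 + 4 * (a+1) * ((V ((X + δ) + j * α) δ Y)^2 + (V ((X - δ) + j * α) δ Y)^2)) :=
        Finset.sum_le_sum hpt
    _ = Z * (4 * K1^2 * (δ^2 * (L * Z)) + 4 * K2^2 * L + 4 * (a+1) * (∑ j ∈ Finset.range L, (V ((X + δ) + j * α) δ Y)^2 +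
          ∑ j ∈ Finset.range L, (V ((X - δ) + j * α) δ Y)^2)) := by
        rw [← Finset.mul_sum, Finset.sum_add_distrib, Finset.sum_const, Finset.card_range, nsmul_eq_mul,
          ← Finset.mul_sum, Finset.sum_add_distrib]
        ring
    _ ≤ Z * (4 * K1^2 * (Z^ε * (L + T)) + 4 * K2^2 * (Z^ε * (L + T)) + 4 * (a+1) * ((2 * (C2 * 2^ε)) * Z^ε * (L + T) +
          (2 * (C2 * 2^ε)) * Z^ε * (L + T))) := by
        have h1 := hsum (X + δ)
        have h2 := hsum (X - δ)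
        have h3 : δ^2 * (L * Z) ≤ Z^ε * (L + T) := by
          calc δ^2 * (L * Z) ≤ 1 * (L + T) := by rw [one_mul]; exact hδ2
            _ ≤ _ := mul_le_mul_of_nonneg_right hZε (by positivity)
        have h4 : (L:ℝ) ≤ Z^ε * (L + T) := by
          calc (L:ℝ) ≤ 1 * (L + T) := by linarith
            _ ≤ _ := mul_le_mul_of_nonneg_right hZε (by positivity)
        have h5 : 4 * K1^2 * (δ^2 * (L * Z)) ≤ 4 * K1^2 * (Z^ε * (L + T)) := mul_le_mul_of_nonneg_left h3 (by positivity)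
        have h6 : 4 * K2^2 * L ≤ 4 * K2^2 * (Z^ε * (L + T)) := mul_le_mul_of_nonneg_left h4 (by positivity)
        have h7 : 4 * (a+1) * (∑ j ∈ Finset.range L, (V ((X + δ) + j * α) δ Y)^2 +
          ∑ j ∈ Finset.range L, (V ((X - δ) + j * α) δ Y)^2) ≤
          4 * (a+1) * ((2 * (C2 * 2^ε)) * Z^ε * (L + T) + (2 * (C2 * 2^ε)) * Z^ε * (L + T)) :=
          mul_le_mul_of_nonneg_left (by linarith) (by positivity)
        apply mul_le_mul_of_nonneg_left _ hZ0.le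
        linarith
    _ = (4 * K1^2 + 4 * K2^2 + 4 * (a+1) * (2 * (2 * (C2 * 2^ε)))) * (Z * Z^ε) * (L + T) := by ring
    _ ≤ (4 * K1^2 + 4 * K2^2 + 4 * (a+1) * (2 * (2 * (C2 * 2^ε)))) * (Z * Z^ε) * (2 * (L + W')) := by gcongr
    _ = _ := by
        rw [Real.rpow_add hZ0, Real.rpow_one]
        ring

/-- the number of lattice points in an annulus -/
lemma F_sub_le {x y : ℝ} (hx : 1 ≤ x) (hxy : x ≤ y) : F (√y) - F (√x) ≤ ∑ m ∈ Finset.Ioc ⌊x⌋₊ ⌊y⌋₊, rA m := by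
  classical
  have hx0 : 0 ≤ x := by linarith
  have hy0 : 0 ≤ y := by linarith
  rw [F_eq_card (Real.sqrt_nonneg y), F_eq_card (Real.sqrt_nonneg x)]
  have hsub : ballS (√x) ⊆ ballS (√y) := by
    intro p hp
    rw [mem_ballS_nz (Real.sqrt_nonneg _)] at hp ⊢
    exact hp.trans (Real.sqrt_le_sqrt hxy)
  have hcard : ((ballS (√y)).card : ℝ) - (ballS (√x)).card = ((ballS (√y) \ ballS (√x)).card : ℝ) := by
    rw [Finset.card_sdiff_of_subset hsub, Nat.cast_sub (Finset.card_le_card hsub)]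
  rw [hcard]
  have hmem : ∀ p ∈ ballS (√y) \ ballS (√x), x < (N2 p : ℝ) ∧ (N2 p : ℝ) ≤ y := by
    intro p hp
    rw [Finset.mem_sdiff, mem_ballS_nz (Real.sqrt_nonneg _), mem_ballS_nz (Real.sqrt_nonneg _), nz_eq, not_le] at hp
    constructor
    · by_contra hcon
      push Not at hcon
      exact absurd hp.2 (not_lt.mpr (Real.sqrt_le_sqrt hcon))
    · by_contra hcon
      push Not at hcon
      have := Real.sqrt_lt_sqrt hy0 hcon
      linarith [hp.1]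
  have hmaps : ∀ p ∈ ballS (√y) \ ballS (√x), N2 p ∈ Finset.Ioc ⌊x⌋₊ ⌊y⌋₊ := by
    intro p hp
    obtain ⟨h1, h2⟩ := hmem p hp
    rw [Finset.mem_Ioc]
    exact ⟨(Nat.floor_lt hx0).mpr h1, Nat.le_floor h2⟩
  rw [Finset.card_eq_sum_card_fiberwise hmaps]
  push_cast
  apply Finset.sum_le_sum
  intro m hm
  rw [Finset.mem_Ioc] at hm
  have hm1 : 1 ≤ m := by
    have : 1 ≤ ⌊x⌋₊ := Nat.le_floor (by simpa using hx)
    omega
  set Y := m + 1 with hY
  have h3 := fiber_card Y m (by rw [hY]; nlinarith)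
  rw [if_neg (by omega)] at h3
  rw [← h3]
  have : (ballS (√y) \ ballS (√x)).filter (fun p => N2 p = m) ⊆ ((ballS (Y:ℝ)).erase 0).filter (fun p => N2 p = m) := by
    intro p hp
    rw [Finset.mem_filter] at hp ⊢
    refine ⟨?_, hp.2⟩
    rw [Finset.mem_erase, mem_ballS_nz (Nat.cast_nonneg _), nz_eq, hp.2]
    constructor
    · intro h0
      have h4 := hp.2
      rw [h0] at h4
      simp [N2] at h4
      omega
    · rw [Real.sqrt_le_left (Nat.cast_nonneg _), hY]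
      push_cast
      nlinarith [Nat.cast_nonneg (α := ℝ) m]
  exact_mod_cast Finset.card_le_card this

lemma Cx_eq {x : ℝ} (hx : 0 ≤ x) : Cx x = F (√x) - Real.pi * x := by
  unfold Cx F
  rw [Real.sq_sqrt hx]

lemma Cx_pert_aux {S : ℝ} (hS : 0 ≤ S) {ε : ℝ} (hε : 0 < ε) : ∃ C : ℝ, 0 < C ∧ ∀ x y : ℝ, 1 ≤ x → x ≤ y → y - x ≤ S →
    |Cx y - Cx x| ≤ C * y ^ ε := by
  obtain ⟨C1, hC1, hdiv⟩ := Pool.Agent.Helper112.divisor_bound ε hε
  have hpi := Real.pi_pos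
  refine ⟨(S + 1) * (4 * C1) + Real.pi * S, by positivity, ?_⟩
  intro x y hx hxy hS'
  have hx0 : 0 < x := by linarith
  have hy1 : 1 ≤ y := by linarith
  have hy0 : 0 < y := by linarith
  have hyε : 1 ≤ y ^ ε := Real.one_le_rpow hy1 hε.le
  have hfl : ⌊x⌋₊ ≤ ⌊y⌋₊ := Nat.floor_mono hxy
  have hd0 : 0 ≤ F (√y) - F (√x) := by
    have := F_mono (Real.sqrt_nonneg x) (Real.sqrt_le_sqrt hxy)
    linarith
  have hd1 : F (√y) - F (√x) ≤ (S + 1) * (4 * C1) * y ^ ε := by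
    refine (F_sub_le hx hxy).trans ?_
    have hb : ∀ n ∈ Finset.Ioc ⌊x⌋₊ ⌊y⌋₊, rA n ≤ 4 * C1 * y ^ ε := by
      intro n hn
      rw [Finset.mem_Ioc] at hn
      have hn1 : 1 ≤ n := by omega
      have h1 := hdiv n hn1
      have h2 : (n:ℝ) ≤ y := by
        have : (n:ℝ) ≤ ⌊y⌋₊ := by exact_mod_cast hn.2
        exact this.trans (Nat.floor_le hy0.le)
      have h3 : rA n ≤ 4 * (n.divisors.card : ℝ) := by
        unfold rA
        have := card_A_le n hn1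
        exact_mod_cast this
      calc rA n ≤ 4 * (n.divisors.card : ℝ) := h3
        _ ≤ 4 * (C1 * (n:ℝ) ^ ε) := by linarith
        _ ≤ 4 * (C1 * y ^ ε) := by
            apply mul_le_mul_of_nonneg_left _ (by norm_num)
            apply mul_le_mul_of_nonneg_left _ hC1.le
            exact Real.rpow_le_rpow (Nat.cast_nonneg n) h2 hε.le
        _ = _ := by ring
    have hcard : ((Finset.Ioc ⌊x⌋₊ ⌊y⌋₊).card : ℝ) ≤ S + 1 := by
      rw [Nat.card_Ioc, Nat.cast_sub hfl]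
      have h1 := Nat.floor_le hy0.le
      have h2 := Nat.lt_floor_add_one x
      linarith
    calc _ ≤ ∑ n ∈ Finset.Ioc ⌊x⌋₊ ⌊y⌋₊, 4 * C1 * y ^ ε := Finset.sum_le_sum hb
      _ = ((Finset.Ioc ⌊x⌋₊ ⌊y⌋₊).card : ℝ) * (4 * C1 * y ^ ε) := by rw [Finset.sum_const, nsmul_eq_mul]
      _ ≤ (S + 1) * (4 * C1 * y ^ ε) := mul_le_mul_of_nonneg_right hcard (by positivity)
      _ = _ := by ring
  have hp1 : Real.pi * (y - x) ≤ Real.pi * S * y ^ ε := by
    calc Real.pi * (y - x) ≤ Real.pi * S := mul_le_mul_of_nonneg_left hS' hpi.le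
      _ = Real.pi * S * 1 := by ring
      _ ≤ _ := mul_le_mul_of_nonneg_left hyε (by positivity)
  have hp0 : 0 ≤ Real.pi * (y - x) := mul_nonneg hpi.le (by linarith)
  rw [Cx_eq hy0.le, Cx_eq hx0.le, abs_le]
  have h1 : 0 ≤ (S + 1) * (4 * C1) * y ^ ε := by positivity
  have h2 : 0 ≤ Real.pi * S * y ^ ε := by positivity
  have h3 : ((S + 1) * (4 * C1) + Real.pi * S) * y ^ ε = (S + 1) * (4 * C1) * y ^ ε + Real.pi * S * y ^ ε := by ring
  constructor
  · linarith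
  · linarith

lemma Cx_pert {S : ℝ} (hS : 0 ≤ S) {ε : ℝ} (hε : 0 < ε) : ∃ C : ℝ, 0 < C ∧ ∀ x y : ℝ, 1 ≤ x → 1 ≤ y → |x - y| ≤ S →
    |Cx x - Cx y| ≤ C * y ^ ε := by
  obtain ⟨C, hC, h⟩ := Cx_pert_aux hS hε
  refine ⟨C * (1 + S) ^ ε, by positivity, ?_⟩
  intro x y hx hy hxy
  have hy0 : 0 < y := by linarith
  have h1S : 1 ≤ (1 + S) ^ ε := Real.one_le_rpow (by linarith) hε.le
  rcases le_total x y with h1 | h1
  · have h2 := h x y hx h1 (by rw [abs_sub_comm, abs_of_nonneg (by linarith)] at hxy; exact hxy)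
    rw [abs_sub_comm] at h2
    calc _ ≤ C * y ^ ε := h2
      _ ≤ C * (1 + S) ^ ε * y ^ ε := by
          have : 0 ≤ C * y ^ ε := by positivity
          nlinarith
  · have hd : x - y ≤ S := by rw [abs_of_nonneg (by linarith)] at hxy; exact hxy
    have h2 := h y x hy h1 hd
    calc _ ≤ C * x ^ ε := h2
      _ ≤ C * ((1 + S) * y) ^ ε := by
          apply mul_le_mul_of_nonneg_left _ hC.le
          apply Real.rpow_le_rpow (by linarith) _ hε.le
          nlinarith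
      _ = _ := by rw [Real.mul_rpow (by linarith) hy0.le]; ring

theorem ms_short_pert {α : ℝ} (hα : 0 < α) {S : ℝ} (hS : 0 ≤ S) {ε : ℝ} (hε : 0 < ε) :
    ∃ C : ℝ, 0 < C ∧ ∀ X : ℝ, 1 ≤ X → ∀ (L : ℕ) (x : ℕ → ℝ), (∀ j < L, 1 ≤ x j ∧ |x j - (X + j * α)^2| ≤ S) →
    ∑ j ∈ Finset.range L, (Cx (x j))^2 ≤ C * (X + L) ^ (1 + ε) * (L + (L * X) ^ (1/3:ℝ)) := by
  obtain ⟨C1, hC1, h1⟩ := ms_short hα hε
  obtain ⟨C2, hC2, h2⟩ := Cx_pert hS (ε := (1 + ε)/4) (by positivity)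
  set a : ℝ := 1 + α with ha
  have ha0 : 0 < a := by positivity
  refine ⟨2 * C1 + 2 * C2^2 * a ^ (1 + ε), by positivity, ?_⟩
  intro X hX L x hx
  have hX0 : 0 < X := by linarith
  have hL0 : (0:ℝ) ≤ L := Nat.cast_nonneg L
  have hpt : ∀ j ∈ Finset.range L, (Cx (x j))^2 ≤ 2 * (F (X + j * α) - Real.pi * (X + j * α)^2)^2 + 2 * C2^2 * (a ^ (1 + ε) * (X + L) ^ (1 + ε)) := by
    intro j hj
    rw [Finset.mem_range] at hj
    obtain ⟨hx1, hx2⟩ := hx j hj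
    have hj0 : (0:ℝ) ≤ j := Nat.cast_nonneg j
    have hjL : (j:ℝ) ≤ L := by exact_mod_cast hj.le
    set R : ℝ := X + j * α with hR
    have hR1 : 1 ≤ R := by rw [hR]; nlinarith
    have hR0 : 0 < R := by linarith
    have hRZ : R ≤ a * (X + L) := by
      rw [hR, ha]
      have : (j:ℝ) * α ≤ L * α := mul_le_mul_of_nonneg_right hjL hα.le
      nlinarith
    have hCR : Cx (R^2) = F R - Real.pi * R^2 := by
      rw [Cx_eq (by positivity), Real.sqrt_sq hR0.le]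
    rw [← hCR]
    have h3 := h2 (x j) (R^2) hx1 (by nlinarith) hx2
    have h4 : (Cx (x j))^2 ≤ 2 * (Cx (R^2))^2 + 2 * (C2 * (R^2) ^ ((1 + ε)/4))^2 := by
      have e : (Cx (x j) - Cx (R^2))^2 ≤ (C2 * (R^2) ^ ((1 + ε)/4))^2 := by
        rw [← sq_abs]; exact pow_le_pow_left₀ (abs_nonneg _) h3 2
      nlinarith [sq_nonneg (Cx (x j) - 2 * Cx (R^2))]
    refine h4.trans ?_
    have h5 : (C2 * (R^2) ^ ((1 + ε)/4))^2 = C2^2 * R ^ (1 + ε) := by
      rw [mul_pow, ← Real.rpow_natCast R 2, ← Real.rpow_mul hR0.le, ← Real.rpow_natCast (R ^ _), ← Real.rpow_mul hR0.le]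
      congr 2; push_cast; ring
    have h6 : R ^ (1 + ε) ≤ a ^ (1 + ε) * (X + L) ^ (1 + ε) := by
      rw [← Real.mul_rpow ha0.le (by positivity)]
      exact Real.rpow_le_rpow hR0.le hRZ (by positivity)
    rw [h5]
    have h7 : 2 * (C2^2 * R ^ (1 + ε)) ≤ 2 * C2^2 * (a ^ (1 + ε) * (X + L) ^ (1 + ε)) := by
      rw [← mul_assoc]
      exact mul_le_mul_of_nonneg_left h6 (by positivity)
    linarith
  refine (Finset.sum_le_sum hpt).trans ?_
  rw [Finset.sum_add_distrib, ← Finset.mul_sum, Finset.sum_const, Finset.card_range, nsmul_eq_mul]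
  have h3 := h1 X hX L
  have hW0 : 0 ≤ (L * X : ℝ) ^ (1/3:ℝ) := by positivity
  have hZ0 : 0 ≤ (X + L) ^ (1 + ε) := by positivity
  have h4 : (L:ℝ) * (2 * C2^2 * (a ^ (1 + ε) * (X + L) ^ (1 + ε))) ≤
      2 * C2^2 * a ^ (1 + ε) * (X + L) ^ (1 + ε) * (L + (L * X) ^ (1/3:ℝ)) := by
    have : 0 ≤ 2 * C2^2 * a ^ (1 + ε) * (X + L) ^ (1 + ε) * (L * X) ^ (1/3:ℝ) := by positivity
    nlinarith
  linarith

end Pool.Agent.H452R2.Circ
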